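import Pool.Graph.R_seed8.R333.BR.Pts

/-! Relations between permutation characters and ranks; finiteness. -/

set_option autoImplicit false

namespace Pool.Agent.H453.BS

open Module Representation TensorProduct
open Pool.Agent.R433.MD (fx)
open Pool.Agent.R333.BR

section chars

variable {G : Type} [Group G] [Fintype G] {V : Type} [AddCommGroup V] [Module ℚ V]
  (ρ : Representation ℚ G V)

/-- the relation for stable subspaces of finite dimension -/
theorem rel_stable {ι : Type} [Fintype ι] (H : ι → Subgroup G) (e : ι → ℤ)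
    (h : ∀ g : G, ∑ i, e i * fx (H i) g = 0) {W : Submodule ℚ V} [FiniteDimensional ℚ W]
    (hW : ∀ g : G, ∀ x ∈ W, ρ g x ∈ W) :
    ∑ i, e i * (finrank ℚ (invariants (ρ.comp (H i).subtype) ⊓ W : Submodule ℚ V) : ℤ) = 0 := by
  let ρW : Representation ℚ G W :=
    { toFun := fun g => (ρ g).restrict (hW g)
      map_one' := by
        ext x
        simp [LinearMap.restrict_apply]
      map_mul' := by
        intro g g'
        ext x
        simp [LinearMap.restrict_apply] }
  have key : ∀ K : Subgroup G, Nonempty (invariants (ρW.comp K.subtype) ≃ₗ[ℚ]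
      (invariants (ρ.comp K.subtype) ⊓ W : Submodule ℚ V)) := by
    intro K
    have e1 : invariants (ρW.comp K.subtype) =
        (invariants (ρ.comp K.subtype) ⊓ W).comap W.subtype := by
      ext x
      rw [Submodule.mem_comap, Submodule.mem_inf, mem_invariants, mem_invariants]
      constructor
      · intro h
        exact ⟨fun k => congrArg Subtype.val (h k), x.2⟩
      · intro h k
        exact Subtype.ext (h.1 k)
    rw [e1]
    exact ⟨Submodule.comapSubtypeEquivOfLe inf_le_right⟩
  have h1 := rel_fin H e 0 ρW h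
  rw [zero_mul] at h1
  rw [h1]
  refine Finset.sum_congr rfl fun i _ => ?_
  obtain ⟨ei⟩ := key (H i)
  rw [ei.finrank_eq]

/-- the stable hull -/
theorem exists_hull (U : Submodule ℚ V) [FiniteDimensional ℚ U] :
    ∃ W : Submodule ℚ V, FiniteDimensional ℚ W ∧ U ≤ W ∧ ∀ g : G, ∀ x ∈ W, ρ g x ∈ W := by
  refine ⟨⨆ g : G, U.map (ρ g), inferInstance, ?_, ?_⟩
  · refine le_trans ?_ (le_iSup (fun g : G => U.map (ρ g)) 1)
    intro x hx
    exact ⟨x, hx, by simp⟩
  · intro g x hx
    have h1 : (⨆ g : G, U.map (ρ g)).map (ρ g) ≤ ⨆ g : G, U.map (ρ g) := by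
      rw [Submodule.map_iSup]
      refine iSup_le fun g' => ?_
      rw [← Submodule.map_comp]
      have e1 : (ρ g).comp (ρ g') = ρ (g * g') := by rw [map_mul]; rfl
      rw [e1]
      exact le_iSup (fun g : G => U.map (ρ g)) (g * g')
    exact h1 ⟨x, hx, rfl⟩

/-- **Finiteness.** -/
theorem rel_finite {ι : Type} [Fintype ι] (H₀ : Subgroup G) (H : ι → Subgroup G) (c : ι → ℤ)
    (h : ∀ g : G, fx H₀ g = ∑ i, c i * fx (H i) g)
    (hfin : ∀ i, FiniteDimensional ℚ (invariants (ρ.comp (H i).subtype))) :
    FiniteDimensional ℚ (invariants (ρ.comp H₀.subtype)) := by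
  classical
  set N : ℕ := ∑ i, (c i).natAbs * finrank ℚ (invariants (ρ.comp (H i).subtype)) with hN
  have h1 : Module.rank ℚ (invariants (ρ.comp H₀.subtype)) ≤ (N : ℕ) := by
    refine rank_le fun s hs => ?_
    let U : Submodule ℚ V := Submodule.span ℚ (Set.range fun x : s => ((x : _) : V))
    have hUfin : FiniteDimensional ℚ U :=
      FiniteDimensional.span_of_finite ℚ (Set.finite_range _)
    have hs' : LinearIndependent ℚ (fun x : s => ((x : _) : V)) :=
      hs.map' (invariants (ρ.comp H₀.subtype)).subtype (Submodule.ker_subtype _)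
    have hcard : finrank ℚ U = s.card := by
      have := finrank_span_eq_card hs'
      rw [Fintype.card_coe] at this
      exact this
    obtain ⟨W, hWfin, hUW, hW⟩ := exists_hull ρ U
    have h2 := rel_stable ρ (ι := Option ι) (fun i => i.elim H₀ H) (fun i => i.elim (-1) c)
      (fun g => by
        rw [Fintype.sum_option]
        change (-1 : ℤ) * fx H₀ g + ∑ i, c i * fx (H i) g = 0
        rw [h g]
        ring) hW
    rw [Fintype.sum_option] at h2
    have h3 : (finrank ℚ (invariants (ρ.comp H₀.subtype) ⊓ W : Submodule ℚ V) : ℤ) =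
        ∑ i, c i * (finrank ℚ (invariants (ρ.comp (H i).subtype) ⊓ W : Submodule ℚ V) : ℤ) := by
      change (-1 : ℤ) * (finrank ℚ (invariants (ρ.comp H₀.subtype) ⊓ W : Submodule ℚ V) : ℤ) +
        ∑ i, c i * (finrank ℚ (invariants (ρ.comp (H i).subtype) ⊓ W : Submodule ℚ V) : ℤ) = 0 at h2
      linarith
    have h4 : U ≤ invariants (ρ.comp H₀.subtype) ⊓ W := by
      refine le_inf ?_ hUW
      rw [Submodule.span_le]
      rintro _ ⟨x, rfl⟩
      exact (x : invariants (ρ.comp H₀.subtype)).2
    have h5 : finrank ℚ U ≤ finrank ℚ (invariants (ρ.comp H₀.subtype) ⊓ W : Submodule ℚ V) :=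
      Submodule.finrank_mono h4
    have h6 : (∑ i, c i * (finrank ℚ (invariants (ρ.comp (H i).subtype) ⊓ W : Submodule ℚ V) : ℤ))
        ≤ (N : ℤ) := by
      rw [hN]
      push_cast
      refine Finset.sum_le_sum fun i _ => ?_
      have h7 : finrank ℚ (invariants (ρ.comp (H i).subtype) ⊓ W : Submodule ℚ V) ≤
          finrank ℚ (invariants (ρ.comp (H i).subtype)) :=
        Submodule.finrank_mono inf_le_left
      calc c i * (finrank ℚ (invariants (ρ.comp (H i).subtype) ⊓ W : Submodule ℚ V) : ℤ)
          ≤ |c i| * (finrank ℚ (invariants (ρ.comp (H i).subtype) ⊓ W : Submodule ℚ V) : ℤ) :=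
            mul_le_mul_of_nonneg_right (le_abs_self _) (by positivity)
        _ ≤ |c i| * (finrank ℚ (invariants (ρ.comp (H i).subtype)) : ℤ) :=
            mul_le_mul_of_nonneg_left (by exact_mod_cast h7) (abs_nonneg _)
    have h8 : (s.card : ℤ) ≤ N := by
      rw [← hcard]
      calc (finrank ℚ U : ℤ) ≤ _ := by exact_mod_cast h5
        _ = _ := h3
        _ ≤ _ := h6
    exact_mod_cast h8
  exact Module.rank_lt_aleph0_iff.1 (h1.trans_lt Cardinal.natCast_lt_aleph0)

end chars

section
variable {K : Type} [Field K] (E : WeierstrassCurve K) {L : Type} [Field L] [Algebra K L]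
  [FiniteDimensional K L] [IsGalois K L]

open scoped Classical in
/-- **Relations between ranks.** -/
theorem rank_rel' {ι : Type} [Fintype ι] {F₀ : Type} [Field F₀] [Algebra K F₀] (f₀ : F₀ →ₐ[K] L)
    (F : ι → Type) [∀ i, Field (F i)]
    [∀ i, Algebra K (F i)] (f : ∀ i, F i →ₐ[K] L) (c : ι → ℤ)
    (h : ∀ g : Gal(L/K), fx f₀.fieldRange.fixingSubgroup g =
      ∑ i, c i * fx (f i).fieldRange.fixingSubgroup g) (r : ι → ℕ)
    (hr : ∀ i, Module.rank ℤ (Pt E (F i)) = r i) :
    ∃ r0 : ℕ, Module.rank ℤ (Pt E F₀) = r0 ∧ (r0 : ℤ) = ∑ i, c i * (r i : ℤ) := by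
  have h1 : ∀ i, Module.rank ℚ (Representation.invariants
      ((ext (actPt (L := L) E)).comp (f i).fieldRange.fixingSubgroup.subtype)) = r i := fun i => by
    rw [rank_fixed, ← rank_emb, hr]
  have hfin : ∀ i, FiniteDimensional ℚ (Representation.invariants
      ((ext (actPt (L := L) E)).comp (f i).fieldRange.fixingSubgroup.subtype)) := fun i => by
    refine Module.rank_lt_aleph0_iff.1 ?_
    rw [h1]
    exact Cardinal.natCast_lt_aleph0
  have h0 := rel_finite (ext (actPt (L := L) E)) f₀.fieldRange.fixingSubgroup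
    (fun i => (f i).fieldRange.fixingSubgroup) c h hfin
  have h2 : Module.rank ℤ (Pt E F₀) = (finrank ℚ (Representation.invariants
      ((ext (actPt (L := L) E)).comp f₀.fieldRange.fixingSubgroup.subtype)) : ℕ) := by
    rw [rank_emb (L := L) E f₀, ← rank_fixed, Module.finrank_eq_rank]
  refine ⟨_, h2, ?_⟩
  have hopt : ∀ i : Option ι, FiniteDimensional ℚ (Representation.invariants
      ((ext (actPt (L := L) E)).comp ((i.elim f₀.fieldRange.fixingSubgroup
        (fun i => (f i).fieldRange.fixingSubgroup) : Subgroup Gal(L/K))).subtype)) := by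
    rintro (_ | i)
    · exact h0
    · exact hfin i
  obtain ⟨-, h3⟩ := rel_inv (ι := Option ι) (fun i => i.elim f₀.fieldRange.fixingSubgroup
    (fun i => (f i).fieldRange.fixingSubgroup)) (fun i => i.elim (-1) c) 0
    (ext (actPt (L := L) E)) (fun g => by
      rw [Fintype.sum_option]
      change (-1 : ℤ) * fx f₀.fieldRange.fixingSubgroup g +
        ∑ i, c i * fx (f i).fieldRange.fixingSubgroup g = 0
      rw [h g]
      ring) hopt
  rw [zero_mul, Fintype.sum_option] at h3
  have h4 : ∀ i, finrank ℚ (Representation.invariants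
      ((ext (actPt (L := L) E)).comp (f i).fieldRange.fixingSubgroup.subtype)) = r i := by
    intro i
    rw [Module.finrank, h1]
    exact Cardinal.toNat_natCast _
  have h5 : (0 : ℤ) = (-1 : ℤ) * (finrank ℚ (Representation.invariants
      ((ext (actPt (L := L) E)).comp f₀.fieldRange.fixingSubgroup.subtype)) : ℤ) +
      ∑ i, c i * (finrank ℚ (Representation.invariants
      ((ext (actPt (L := L) E)).comp (f i).fieldRange.fixingSubgroup.subtype)) : ℤ) := h3
  rw [Finset.sum_congr rfl fun i _ => by rw [h4 i]] at h5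
  linarith

end

end Pool.Agent.H453.BS
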