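import Pool.Agent.H453.MC.Tw
import Pool.Graph.R_pool_sql_team_seeded_63374d34.N19.BR.Half

/-! Relations between `L`-series; the correcting factor has neither zeros nor poles in `Re s > 1` and at
`s = 1`. -/

set_option autoImplicit false

namespace Pool.Agent.H453.BS

open NumberField IsDedekindDomain Complex Polynomial
open Pool.Agent.H921R2.TatePole (nm two_le_nm nm_summable)
open Pool.Agent.H341R2.EC
open Pool.Agent.H341R2 (finite_v card_v chi)
open Pool.Agent.R433.MD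
open Pool.Agent.R333.BR (nh_congr lf_one)
open Pool.Agent.N19.BR (lf_ne_zero_one)
open Pool.Agent.H453.MC (lf_ext local_id comb2 rc_two isSquare_ext)

/-- meromorphic functions without zeros and poles in `Re s > 1` and at `s = 1` -/
def Nice (R : ℂ → ℂ) : Prop :=
  MeromorphicOn R Set.univ ∧ ∀ s : ℂ, (1 < s.re ∨ s = 1) → AnalyticAt ℂ R s ∧ R s ≠ 0

theorem Nice.one : Nice (fun _ => 1) :=
  ⟨fun _ _ => analyticAt_const.meromorphicAt, fun _ _ => ⟨analyticAt_const, one_ne_zero⟩⟩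

theorem Nice.mul {R R' : ℂ → ℂ} (h : Nice R) (h' : Nice R') : Nice (fun s => R s * R' s) :=
  ⟨h.1.fun_mul h'.1, fun s hs => ⟨(h.2 s hs).1.fun_mul (h'.2 s hs).1,
    mul_ne_zero (h.2 s hs).2 (h'.2 s hs).2⟩⟩

theorem Nice.inv {R : ℂ → ℂ} (h : Nice R) : Nice (fun s => (R s)⁻¹) :=
  ⟨h.1.fun_inv, fun s hs => ⟨(h.2 s hs).1.fun_inv (h.2 s hs).2, inv_ne_zero (h.2 s hs).2⟩⟩

theorem Nice.div {R R' : ℂ → ℂ} (h : Nice R) (h' : Nice R') : Nice (fun s => R s / R' s) := by
  have := h.mul h'.inv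
  simpa only [div_eq_mul_inv] using this

theorem Nice.pow {R : ℂ → ℂ} (h : Nice R) (n : ℕ) : Nice (fun s => R s ^ n) :=
  ⟨h.1.fun_pow n, fun s hs => ⟨(h.2 s hs).1.fun_pow n, pow_ne_zero _ (h.2 s hs).2⟩⟩

theorem Nice.zpow {R : ℂ → ℂ} (h : Nice R) (n : ℤ) : Nice (fun s => R s ^ n) := by
  obtain ⟨m, rfl | rfl⟩ := n.eq_nat_or_neg
  · have := h.pow m
    simpa only [zpow_natCast] using this
  · have := (h.pow m).inv
    simpa only [zpow_neg, zpow_natCast] using this

theorem Nice.prod {ι : Type} (S : Finset ι) {R : ι → ℂ → ℂ} (h : ∀ i ∈ S, Nice (R i)) :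
    Nice (fun s => ∏ i ∈ S, R i s) := by
  classical
  induction S using Finset.induction_on with
  | empty => simpa using Nice.one
  | insert a S ha ih =>
    simp only [Finset.prod_insert ha]
    exact (h a (Finset.mem_insert_self _ _)).mul
      (ih fun i hi => h i (Finset.mem_insert_of_mem hi))

theorem Nice.order {R : ℂ → ℂ} (h : Nice R) : meromorphicOrderAt R 1 = 0 := by
  have h1 := h.2 1 (Or.inr rfl)
  rw [h1.1.meromorphicOrderAt_eq, h1.1.analyticOrderAt_eq_zero.2 h1.2]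
  rfl

section
variable {K : Type} [Field K] [NumberField K]

theorem nice_lf (V : HeightOneSpectrum (𝓞 K) → WeierstrassCurve (𝓞 K))
    (v : HeightOneSpectrum (𝓞 K)) : Nice (fun s => (lf V s v)⁻¹) := by
  have h1 : ∀ s : ℂ, (1 < s.re ∨ s = 1) → lf V s v ≠ 0 := by
    rintro s (hs | rfl)
    · exact lf_ne_zero_one V hs v
    · exact lf_one V v
  have h2 : ∀ s : ℂ, AnalyticAt ℂ (fun s => lf V s v) s := fun s =>
    (differentiable_lf V v).analyticAt s
  exact ⟨fun s _ => (h2 s).meromorphicAt.fun_inv, fun s hs =>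
    ⟨(h2 s).fun_inv (h1 s hs), inv_ne_zero (h1 s hs)⟩⟩

/-- **Relations between L-series.** -/
theorem relation_nice {ι : Type} [Fintype ι] (F : ι → Type) [∀ i, Field (F i)]
    [∀ i, NumberField (F i)] [∀ i, Algebra K (F i)] (a b : ι → ℕ) {D : 𝓞 K} (hD0 : D ≠ 0)
    (hD : ∀ (k : Type) [Field k] [Finite k] (φ : 𝓞 K →+* k), φ D ≠ 0 →
      ∑ i, a i * nh (F i) φ = ∑ i, b i * nh (F i) φ)
    (E : WeierstrassCurve K) (hE : E.IsElliptic)
    (V : ∀ i, HeightOneSpectrum (𝓞 (F i)) → WeierstrassCurve (𝓞 (F i)))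
    (hV : ∀ i w, IsMinAt (E.map (algebraMap K (F i))) w (V i w)) :
    ∃ R : ℂ → ℂ, Nice R ∧
      ∀ s : ℂ, 3 / 2 < s.re →
      ∏ i, (∏' w, (lf (V i) s w)⁻¹) ^ a i = R s * ∏ i, (∏' w, (lf (V i) s w)⁻¹) ^ b i := by
  classical
  obtain ⟨W, hW, hWΔ⟩ := exists_model E hE
  have h6 : (6 : 𝓞 K) ≠ 0 := by norm_num
  have hbad : {v : HeightOneSpectrum (𝓞 K) | 6 * W.Δ * D ∈ v.asIdeal}.Finite :=
    finite_mem (mul_ne_zero (mul_ne_zero h6 hWΔ) hD0)
  set S := hbad.toFinset with hS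
  -- local products
  let A : (ι → ℕ) → ℂ → HeightOneSpectrum (𝓞 K) → ℂ := fun e s v =>
    ∏ i, (∏ w : Fib (F i) v, (lf (V i) s w.1)⁻¹) ^ e i
  have hprod : ∀ (e : ι → ℕ) (s : ℂ), 3 / 2 < s.re →
      HasProd (A e s) (∏ i, (∏' w, (lf (V i) s w)⁻¹) ^ e i) := by
    intro e s hs
    refine hasProd_prod fun i _ => ?_
    have hEi : (E.map (algebraMap K (F i))).IsElliptic := inferInstance
    exact hasProd_pow (hasProd_fib (hasProd_lf _ hEi (V i) (hV i) hs).1) (e i)
  have hgood : ∀ (s : ℂ) (v : HeightOneSpectrum (𝓞 K)), v ∉ S → A a s v = A b s v := by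
    intro s v hv
    have hv' : 6 * W.Δ * D ∉ v.asIdeal := fun h => hv (hbad.mem_toFinset.2 h)
    have hvD : D ∉ v.asIdeal := fun h => hv' (v.asIdeal.mul_mem_left _ h)
    have hvΔ : W.Δ ∉ v.asIdeal := fun h =>
      hv' (v.asIdeal.mul_mem_right _ (v.asIdeal.mul_mem_left _ h))
    have hv6 : (6 : 𝓞 K) ∉ v.asIdeal := fun h =>
      hv' (v.asIdeal.mul_mem_right _ (v.asIdeal.mul_mem_right _ h))
    obtain ⟨g, hg⟩ := exists_count v W
    let G : ℕ → ℂ := fun n => (1 - (((nm v : ℤ) ^ n - (g n : ℤ) : ℤ) : ℂ) *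
      ((nm v ^ n : ℕ) : ℂ) ^ (-s) + ((nm v ^ n : ℕ) : ℂ) ^ (1 - 2 * s))⁻¹
    have hA : ∀ e : ι → ℕ, A e s v = ∏ i, (∏ w : Fib (F i) v, G (fdeg w)) ^ e i := by
      intro e
      refine Finset.prod_congr rfl fun i _ => ?_
      congr 1
      refine Finset.prod_congr rfl fun w _ => ?_
      rw [lf_good hW hv6 hvΔ hg (hV i) w s]
    rw [hA, hA]
    refine comb (fun i => Fib (F i) v) (fun i w => fdeg w) (fun i w => fdeg_pos w) a b ?_ G
    intro m hm
    obtain ⟨k, iF, iFin, iA, hk⟩ := exists_ext (𝓞 K ⧸ v.asIdeal) hm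
    have h1 := hD k (base v k) (by
      rw [base, RingHom.comp_apply]
      intro h
      rw [map_eq_zero_iff _ (algebraMap (𝓞 K ⧸ v.asIdeal) k).injective,
        Ideal.Quotient.eq_zero_iff_mem] at h
      exact hvD h)
    simp only [nh_eq, hk] at h1
    exact h1
  -- the finite parts
  have hnice : ∀ e : ι → ℕ, Nice (fun s => ∏ v ∈ S, A e s v) := fun e =>
    Nice.prod S fun v _ => Nice.prod Finset.univ fun i _ => Nice.pow (Nice.prod Finset.univ
      fun w _ => nice_lf (V i) w.1) (e i)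
  refine ⟨fun s => (∏ v ∈ S, A a s v) / (∏ v ∈ S, A b s v), (hnice a).div (hnice b),
    fun s hs => ?_⟩
  have h1 := compare (hprod a s hs) (hprod b s hs) S (hgood s)
  have h2 := ((hnice b).2 s (Or.inl (by linarith))).2
  rw [div_mul_eq_mul_div, eq_div_iff h2, h1, mul_comm]

variable {L : Type} [Field L] [NumberField L] [Algebra K L] [IsGalois K L]

/-- relations of permutation characters give relations of L-series -/
theorem L_rel_nice {ι : Type} [Fintype ι] (Z : ι → Ext K) (f : ∀ i, (Z i).F →ₐ[K] L) (e : ι → ℤ)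
    (m : ℕ) (h : ∀ g : Gal(L/K), ∑ i, e i * fx (f i).fieldRange.fixingSubgroup g = m)
    (E : WeierstrassCurve K) (hE : E.IsElliptic)
    (V0 : HeightOneSpectrum (𝓞 K) → WeierstrassCurve (𝓞 K)) (hV0 : ∀ v, IsMinAt E v (V0 v))
    (VZ : ∀ i, HeightOneSpectrum (𝓞 (Z i).F) → WeierstrassCurve (𝓞 (Z i).F))
    (hVZ : ∀ i w, IsMinAt (E.map (algebraMap K (Z i).F)) w (VZ i w)) :
    ∃ R : ℂ → ℂ, Nice R ∧
      ∀ s : ℂ, 3 / 2 < s.re → LL V0 s ^ m = R s * ∏ i, LL (VZ i) s ^ e i := by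
  classical
  obtain ⟨D, hD0, hD⟩ := frob_count K L
  let X : Option ι → Ext K := fun i =>
    match i with
    | none => Ext.self K
    | some i => Z i
  let a : Option ι → ℕ := fun i =>
    match i with
    | none => 0
    | some i => (e i).toNat
  let b : Option ι → ℕ := fun i =>
    match i with
    | none => m
    | some i => (-e i).toNat
  let V : ∀ i, HeightOneSpectrum (𝓞 (X i).F) → WeierstrassCurve (𝓞 (X i).F) := fun i =>
    match i with
    | none => V0
    | some i => VZ i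
  have hV : ∀ i w, IsMinAt (E.map (algebraMap K (X i).F)) w (V i w) := by
    rintro (_ | i)
    · intro w
      have e : E.map (algebraMap K (Ext.self K).F) = E := E.map_id
      change IsMinAt (E.map (algebraMap K (Ext.self K).F)) w (V0 w)
      rw [e]
      exact hV0 w
    · exact hVZ i
  obtain ⟨R, hR, hRL⟩ := relation_nice (fun i => (X i).F) a b hD0 (by
    intro k _ _ φ hφ
    obtain ⟨g, hg⟩ := hD k φ hφ
    simp only [Fintype.sum_option]
    have h2 := (nh_self K φ).2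
    have h3 : nh (X none).F φ = 1 := h2
    have h4 : ∀ i : ι, nh (X (some i)).F φ =
        Nat.card {c : Gal(L/K) ⧸ (f i).fieldRange.fixingSubgroup // g • c = c} := fun i => by
      rw [← hg (f i).fieldRange]
      exact nh_congr (AlgEquiv.ofInjectiveField (f i)) φ
    simp only [a, b, zero_add, h3, mul_one, h4]
    have h5 := h g
    have h6 : ((∑ i, (e i).toNat * Nat.card {c : Gal(L/K) ⧸ (f i).fieldRange.fixingSubgroup //
        g • c = c} : ℕ) : ℤ) = ((m + ∑ i, (-e i).toNat *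
        Nat.card {c : Gal(L/K) ⧸ (f i).fieldRange.fixingSubgroup // g • c = c} : ℕ) : ℤ) := by
      push_cast
      rw [← h5, ← Finset.sum_add_distrib]
      refine Finset.sum_congr rfl fun i _ => ?_
      have h7 := Int.toNat_sub_toNat_neg (e i)
      rw [fx]
      linear_combination (Nat.card {c : Gal(L/K) ⧸ (f i).fieldRange.fixingSubgroup //
        g • c = c} : ℤ) * h7
    exact_mod_cast h6) E hE V hV
  refine ⟨fun s => (R s)⁻¹, hR.inv, fun s hs => ?_⟩
  have h1 := (hR.2 s (Or.inl (by linarith))).2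
  have h2 := hRL s hs
  simp only [Fintype.prod_option] at h2
  have h3 : LL V0 s ^ 0 * ∏ i, LL (VZ i) s ^ (e i).toNat =
      R s * (LL V0 s ^ m * ∏ i, LL (VZ i) s ^ (-e i).toNat) := h2
  have hne : ∀ i, LL (VZ i) s ≠ 0 := fun i =>
    LL_ne_zero inferInstance (hVZ i) hs
  rw [pow_zero, one_mul] at h3
  have h4 : ∏ i, LL (VZ i) s ^ e i =
      (∏ i, LL (VZ i) s ^ (e i).toNat) / ∏ i, LL (VZ i) s ^ (-e i).toNat := by
    rw [← Finset.prod_div_distrib]
    refine Finset.prod_congr rfl fun i _ => ?_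
    conv_lhs => rw [← Int.toNat_sub_toNat_neg (e i)]
    rw [zpow_sub₀ (hne _), zpow_natCast, zpow_natCast]
  have h5 : ∏ i, LL (VZ i) s ^ (-e i).toNat ≠ 0 :=
    Finset.prod_ne_zero_iff.2 fun i _ => pow_ne_zero _ (hne _)
  rw [h4, h3]
  field_simp


end

section
variable {F : Type} [Field F] [NumberField F]

/-- **The `L`-series over a quadratic extension.** -/
theorem quad_rel_nice {D : 𝓞 F} (hD0 : D ≠ 0) {Z : Type} [Field Z] [NumberField Z] [Algebra F Z]
    (B : PowerBasis F Z) {α : 𝓞 Z} (hα : (α : Z) = B.gen) (hmin : minpoly (𝓞 F) α = X ^ 2 - C D)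
    (E : WeierstrassCurve F) (hE : E.IsElliptic)
    {V0 VD : HeightOneSpectrum (𝓞 F) → WeierstrassCurve (𝓞 F)}
    {VZ : HeightOneSpectrum (𝓞 Z) → WeierstrassCurve (𝓞 Z)}
    (hV0 : ∀ v, IsMinAt (twist E ((1 : 𝓞 F) : F)) v (V0 v))
    (hVD : ∀ v, IsMinAt (twist E (D : F)) v (VD v))
    (hTD : (twist E (D : F)).IsElliptic) (hT1 : (twist E ((1 : 𝓞 F) : F)).IsElliptic)
    (hVZ : ∀ w, IsMinAt (E.map (algebraMap F Z)) w (VZ w)) :
    ∃ R : ℂ → ℂ, Nice R ∧ ∀ s : ℂ, 3 / 2 < s.re →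
      LL VZ s = R s * (LL V0 s * LL VD s) := by
  classical
  obtain ⟨l, P, Q, hl, hP, hQ, hPQ⟩ := exists_integral E hE
  obtain ⟨D', hD'0, hnh⟩ := nh_pure B hα hmin
  have h60 : (6 : 𝓞 F) ≠ 0 := by norm_num
  have hbad : {v : HeightOneSpectrum (𝓞 F) | 6 * (P ^ 3 - Q ^ 2) * (D * D') ∈ v.asIdeal}.Finite :=
    finite_mem (mul_ne_zero (mul_ne_zero h60 hPQ) (mul_ne_zero hD0 hD'0))
  set S := hbad.toFinset with hS
  have hmodel : IsModel E (mdl P Q 1) := by
    have h1 := isModel_mdl E hl hP hQ 1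
    have e1 : ((1 : 𝓞 F) : F) = 1 := map_one (algebraMap (𝓞 F) F)
    rw [e1, twist_one, isModel_smul] at h1
    exact h1
  -- the two products
  let A : ℂ → HeightOneSpectrum (𝓞 F) → ℂ := fun s v => ∏ w : Fib Z v, (lf VZ s w.1)⁻¹
  let A' : ℂ → HeightOneSpectrum (𝓞 F) → ℂ := fun s v => (lf V0 s v)⁻¹ * (lf VD s v)⁻¹
  have hA : ∀ s : ℂ, 3 / 2 < s.re → HasProd (A s) (LL VZ s) := by
    intro s hs
    have hEZ : (E.map (algebraMap F Z)).IsElliptic := inferInstance
    have h1 := (hasProd_lf _ hEZ VZ hVZ hs).1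
    exact hasProd_fib (K := F) (F := Z) (f := fun w => (lf VZ s w)⁻¹) h1
  have hA' : ∀ s : ℂ, 3 / 2 < s.re → HasProd (A' s) (LL V0 s * LL VD s) := by
    intro s hs
    exact (hasProd_lf _ hT1 V0 hV0 hs).1.mul (hasProd_lf _ hTD VD hVD hs).1
  have hgood : ∀ (s : ℂ) (v : HeightOneSpectrum (𝓞 F)), v ∉ S → A s v = A' s v := by
    intro s v hv
    have hv' : 6 * (P ^ 3 - Q ^ 2) * (D * D') ∉ v.asIdeal := fun h => hv (hbad.mem_toFinset.2 h)
    have hvD : D ∉ v.asIdeal := fun h => hv'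
      (v.asIdeal.mul_mem_left _ (v.asIdeal.mul_mem_right _ h))
    have hvD' : D' ∉ v.asIdeal := fun h => hv'
      (v.asIdeal.mul_mem_left _ (v.asIdeal.mul_mem_left _ h))
    have hvPQ : P ^ 3 - Q ^ 2 ∉ v.asIdeal := fun h =>
      hv' (v.asIdeal.mul_mem_right _ (v.asIdeal.mul_mem_left _ h))
    have hv6 : (6 : 𝓞 F) ∉ v.asIdeal := fun h =>
      hv' (v.asIdeal.mul_mem_right _ (v.asIdeal.mul_mem_right _ h))
    have hv1 : (1 : 𝓞 F) ∉ v.asIdeal := fun h => v.isPrime.ne_top (v.asIdeal.eq_top_iff_one.2 h)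
    have hvΔ : (mdl P Q 1).Δ ∉ v.asIdeal := by
      intro h
      have h1 : 6 ^ 12 * (1 : 𝓞 F) ^ 6 * (P ^ 3 - Q ^ 2) ∈ v.asIdeal := by
        rw [← mdl_Δ]
        exact v.asIdeal.mul_mem_left _ h
      rcases v.isPrime.mem_or_mem h1 with h2 | h2
      · rcases v.isPrime.mem_or_mem h2 with h3 | h3
        · exact hv6 (v.isPrime.mem_of_pow_mem _ h3)
        · exact hv1 (v.isPrime.mem_of_pow_mem _ h3)
      · exact hvPQ h2
    obtain ⟨h0Δ, h0⟩ := count_good hl hP hQ (hV0 v) hv6 hv1 hvPQ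
    obtain ⟨hDΔ, hDc⟩ := count_good hl hP hQ (hVD v) hv6 hvD hvPQ
    have hchi1 : chi (1 : 𝓞 F) v = 1 := by
      unfold chi
      rw [map_one, map_one]
    rw [hchi1, one_mul] at h0
    have hVm : aff (red v (V0 v)) = aff (red v (mdl P Q 1)) := by
      have h1 := isModel_mdl E hl hP hQ 1
      exact aff_model (hV0 v).1 h1 h0Δ hvΔ hv6
    set a : ℤ := (nm v : ℤ) - aff (red v (mdl P Q 1)) with ha
    have hc : csumv P Q v = -a := by
      rw [ha, ← hVm, h0]
      ring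
    have hq := two_le_nm v
    have hlf0 : lf V0 s v = 1 - (a : ℂ) * ((nm v : ℕ) : ℂ) ^ (-s) +
        ((nm v : ℕ) : ℂ) ^ (1 - 2 * s) := by
      unfold lf trc dlt
      rw [if_neg h0Δ, hVm, one_mul]
    have hlfD : lf VD s v = 1 - ((chi D v * a : ℤ) : ℂ) * ((nm v : ℕ) : ℂ) ^ (-s) +
        ((nm v : ℕ) : ℂ) ^ (1 - 2 * s) := by
      unfold lf trc dlt
      rw [if_neg hDΔ, hDc, hc, one_mul]
      congr 4
      ring
    let G : ℕ → ℂ := fun n => (1 - ((Pool.Agent.H82R3.EK.luc a (nm v) n : ℤ) : ℂ) *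
      ((nm v ^ n : ℕ) : ℂ) ^ (-s) + ((nm v ^ n : ℕ) : ℂ) ^ (1 - 2 * s))⁻¹
    have hG1 : G 1 = (lf V0 s v)⁻¹ := by
      rw [hlf0]
      simp only [G, Pool.Agent.H82R3.EK.luc, pow_one]
    have hAv : A s v = ∏ w : Fib Z v, G (fdeg w) :=
      Finset.prod_congr rfl fun w _ => by rw [lf_ext hmodel hv6 hvΔ hVZ w s]
    -- square roots
    have h2v : (2 : 𝓞 F ⧸ v.asIdeal) ≠ 0 := by
      have h6' : (6 : 𝓞 F ⧸ v.asIdeal) ≠ 0 := by
        have := mk_ne hv6
        rwa [map_ofNat] at this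
      intro h
      apply h6'
      have : (6 : 𝓞 F ⧸ v.asIdeal) = 3 * 2 := by norm_num
      rw [this, h, mul_zero]
    have hmkD := mk_ne hvD
    have hsum : ∀ m, 0 < m → ∃ (k : Type) (_ : Field k) (_ : Finite k)
        (_ : Algebra (𝓞 F ⧸ v.asIdeal) k), Module.finrank (𝓞 F ⧸ v.asIdeal) k = m ∧
        ∑ w : Fib Z v, (if fdeg w ∣ m then fdeg w else 0) =
          if IsSquare (algebraMap (𝓞 F ⧸ v.asIdeal) k (Ideal.Quotient.mk v.asIdeal D))
            then 2 else 0 := by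
      intro m hm
      obtain ⟨k, iF, iFin, iA, hk⟩ := exists_ext (𝓞 F ⧸ v.asIdeal) hm
      refine ⟨k, iF, iFin, iA, hk, ?_⟩
      have hinj := (algebraMap (𝓞 F ⧸ v.asIdeal) k).injective
      have h1 := (hnh k (base v k) (by
        rw [base, RingHom.comp_apply]
        intro h
        rw [map_eq_zero_iff _ hinj, Ideal.Quotient.eq_zero_iff_mem] at h
        exact hvD' h)).2
      rw [nh_eq, hk] at h1
      rw [h1]
      have h3 : base v k D = algebraMap (𝓞 F ⧸ v.asIdeal) k (Ideal.Quotient.mk v.asIdeal D) := rfl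
      rw [h3]
      refine rc_two ?_ ?_
      · intro h
        apply h2v
        apply hinj
        rw [map_zero, ← h]
        exact map_ofNat _ 2
      · rwa [Ne, map_eq_zero_iff _ hinj]
    have hval : A s v = (lf V0 s v)⁻¹ * (lf VD s v)⁻¹ := by
      rw [hAv]
      rcases quadraticChar_dichotomy hmkD with hχ | hχ
      · -- split
        have hχ' : chi D v = 1 := hχ
        have hsq : IsSquare (Ideal.Quotient.mk v.asIdeal D) :=
          (quadraticChar_one_iff_isSquare hmkD).1 hχ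
        rw [hlfD, hχ', one_mul, ← hlf0, ← hG1]
        rw [comb2 (fun w : Fib Z v => fdeg w) (fun _ : Fin 2 => 1) (fun w => fdeg_pos w)
          (fun _ => one_pos) (by
            intro m hm
            obtain ⟨k, _, _, _, hk, h1⟩ := hsum m hm
            rw [h1, if_pos (hsq.map _)]
            simp) G]
        simp [pow_two]
      · have hχ' : chi D v = -1 := hχ
        have hsq : ¬ IsSquare (Ideal.Quotient.mk v.asIdeal D) := by
          rwa [← quadraticChar_neg_one_iff_not_isSquare]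
        rw [hlfD, hχ', neg_one_mul, hlf0]
        rw [comb2 (fun w : Fib Z v => fdeg w) (fun _ : Unit => 2) (fun w => fdeg_pos w)
          (fun _ => two_pos) (by
            intro m hm
            obtain ⟨k, _, _, _, hk, h1⟩ := hsum m hm
            rw [h1]
            simp only [isSquare_ext (l := k) h2v hmkD hsq, hk]
            simp) G]
        rw [← mul_inv, local_id (by omega) a s]
        simp [G]
    exact hval
  -- the finite parts
  have hn : Nice (fun s => ∏ v ∈ S, A s v) :=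
    Nice.prod S fun v _ => Nice.prod Finset.univ fun w _ => nice_lf VZ w.1
  have hn' : Nice (fun s => ∏ v ∈ S, A' s v) :=
    Nice.prod S fun v _ => (nice_lf V0 v).mul (nice_lf VD v)
  refine ⟨fun s => (∏ v ∈ S, A s v) / (∏ v ∈ S, A' s v), hn.div hn', fun s hs => ?_⟩
  have h1 := compare (hA s hs) (hA' s hs) S (hgood s)
  have h2 := (hn'.2 s (Or.inl (by linarith))).2
  rw [div_mul_eq_mul_div, eq_div_iff h2, h1, mul_comm]

end

end Pool.Agent.H453.BS
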