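import Pool.Graph.R_seed8.R333.BR.Pts
import Pool.Graph.R_seed8.R433.MD.Euler
import Pool.Graph.R_seed8.Y700.VC

/-! The rank of an elliptic curve over a quadratic extension. -/

set_option autoImplicit false

namespace Pool.Agent.H453.BS

open scoped Classical
open WeierstrassCurve WeierstrassCurve.Affine
open Pool.Agent.H341R2.EC (twist)
open Pool.Agent.R333.BR
open Pool.Agent.Y700 (VR)

theorem rank_invol {A : Type} [AddCommGroup A] (τ : A →ₗ[ℤ] A) (h : ∀ x, τ (τ x) = x) :
    Module.rank ℤ A = Module.rank ℤ (LinearMap.ker (LinearMap.id - τ)) +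
      Module.rank ℤ (LinearMap.ker (LinearMap.id + τ)) := by
  have h1 := LinearMap.rank_range_add_rank_ker (LinearMap.id - τ)
  have h2 : Module.rank ℤ (LinearMap.range (LinearMap.id - τ)) =
      Module.rank ℤ (LinearMap.ker (LinearMap.id + τ)) := by
    apply le_antisymm
    · apply Submodule.rank_mono
      rintro _ ⟨x, rfl⟩
      rw [LinearMap.mem_ker]
      simp only [LinearMap.sub_apply, LinearMap.add_apply, LinearMap.id_apply, map_sub, h]
      abel
    · let ψ : LinearMap.ker (LinearMap.id + τ) →ₗ[ℤ] LinearMap.range (LinearMap.id - τ) :=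
        (LinearMap.id - τ).rangeRestrict.comp (LinearMap.ker (LinearMap.id + τ)).subtype
      have h3 := LinearMap.rank_range_add_rank_ker ψ
      have h4 : Module.rank ℤ (LinearMap.ker ψ) = 0 := by
        rw [rank_eq_zero_iff]
        rintro ⟨⟨x, hx⟩, hx'⟩
        refine ⟨2, two_ne_zero, ?_⟩
        apply Subtype.ext
        apply Subtype.ext
        change (2 : ℤ) • x = 0
        rw [LinearMap.mem_ker] at hx hx'
        have h5 : x + τ x = 0 := hx
        have h6 : x - τ x = 0 := congrArg Subtype.val hx'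
        rw [two_smul]
        calc x + x = (x + τ x) + (x - τ x) := by abel
          _ = 0 := by rw [h5, h6, add_zero]
      rw [h4, add_zero] at h3
      rw [← h3]
      exact Submodule.rank_le _
  rw [← h1, h2, add_comm]

section
variable {F : Type} [Field F] [CharZero F]

/-- the change to the short equation -/
theorem vr_short (E : WeierstrassCurve F) : VR E (twist E 1) (1 / 6) (-E.b₂ / 12) (-E.a₁ / 2)
    (E.a₁ * E.b₂ / 24 - E.a₃ / 2) where
  u0 := by norm_num
  e1 := by simp only [twist]; ring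
  e2 := by simp only [twist, WeierstrassCurve.b₂]; ring
  e3 := by simp only [twist, WeierstrassCurve.b₂]; ring
  e4 := by
    simp only [twist, WeierstrassCurve.b₂, WeierstrassCurve.b₄, WeierstrassCurve.c₄]
    ring
  e6 := by
    simp only [twist, WeierstrassCurve.b₂, WeierstrassCurve.b₄, WeierstrassCurve.b₆,
      WeierstrassCurve.c₆]
    ring

theorem twist_disc {E : WeierstrassCurve F} (hE : E.Δ ≠ 0) {d : F} (hd : d ≠ 0) :
    (twist E d).Δ ≠ 0 := by
  have h1 : (1728 : F) * (twist E d).Δ = 1728 * (6 ^ 12 * d ^ 6 * E.Δ) := by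
    rw [WeierstrassCurve.c_relation, ← mul_assoc, mul_comm (1728 : F), mul_assoc, E.c_relation]
    simp only [WeierstrassCurve.c₄, WeierstrassCurve.c₆, WeierstrassCurve.b₂, WeierstrassCurve.b₄,
      WeierstrassCurve.b₆, twist]
    ring
  have h2 := mul_left_cancel₀ (by norm_num : (1728 : F) ≠ 0) h1
  rw [h2]
  exact mul_ne_zero (mul_ne_zero (by norm_num) (pow_ne_zero _ hd)) hE

end

section
variable {F : Type} [Field F] [CharZero F] {Z : Type} [Field Z] [Algebra F Z]

theorem map_twist (E : WeierstrassCurve F) (d : F) :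
    (twist E d).map (algebraMap F Z) = twist (E.map (algebraMap F Z)) (algebraMap F Z d) := by
  ext
  · simp [twist]
  · simp [twist]
  · simp [twist]
  · simp only [twist, WeierstrassCurve.map_a₄, WeierstrassCurve.map_c₄, map_mul, map_neg, map_pow,
      map_ofNat]
  · simp only [twist, WeierstrassCurve.map_a₆, WeierstrassCurve.map_c₆, map_mul, map_neg, map_pow,
      map_ofNat]

/-- the twist is isomorphic to the curve over the quadratic extension -/
theorem vr_twist (E : WeierstrassCurve F) {d : F} (hd : d ≠ 0) {α : Z}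
    (hα : α ^ 2 = algebraMap F Z d) :
    VR ((twist E 1).map (algebraMap F Z)) ((twist E d).map (algebraMap F Z)) α⁻¹ 0 0 0 := by
  have hα0 : α ≠ 0 := by
    rintro rfl
    rw [zero_pow two_ne_zero] at hα
    exact hd ((map_eq_zero _).1 hα.symm)
  rw [map_twist, map_twist, ← hα, map_one]
  constructor
  · exact inv_ne_zero hα0
  · simp [twist]
  · simp [twist]
  · simp [twist]
  · simp only [twist]
    field_simp
    ring
  · simp only [twist]
    field_simp
    ring

variable [FiniteDimensional F Z] [IsGalois F Z]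

omit [CharZero F] in
/-- the points over the base field -/
theorem mem_range_of_fixed (S : WeierstrassCurve F) {d : F} {α : Z}
    (hα : α ^ 2 = algebraMap F Z d)
    (hgen : ∀ z : Z, ∃ x y : F, z = algebraMap F Z x + algebraMap F Z y * α)
    {σ : Gal(Z/F)} (hσ : σ α = -α) (P : Pt S Z) :
    P ∈ LinearMap.range (mp S (Algebra.ofId F Z)).toIntLinearMap ↔
      mp S (σ : Z →ₐ[F] Z) P = P := by
  rw [range_mp]
  constructor
  · intro h
    exact h ⟨σ, by
      rintro ⟨_, y, rfl⟩
      exact σ.commutes y⟩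
  · intro h g
    have hg : (g : Gal(Z/F)) = 1 ∨ (g : Gal(Z/F)) = σ := by
      have h2 : ((g : Gal(Z/F)) α) ^ 2 = α ^ 2 := by
        rw [← map_pow, hα, AlgEquiv.commutes]
      rcases sq_eq_sq_iff_eq_or_eq_neg.1 h2 with h3 | h3
      · left
        ext z
        obtain ⟨x, y, rfl⟩ := hgen z
        simp only [map_add, map_mul, AlgEquiv.commutes, h3, AlgEquiv.one_apply]
      · right
        ext z
        obtain ⟨x, y, rfl⟩ := hgen z
        simp only [map_add, map_mul, AlgEquiv.commutes, h3, hσ]
    change actPt S (g : Gal(Z/F)) P = P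
    rcases hg with hg | hg
    · rw [hg, map_one]
      rfl
    · rw [hg]
      exact h

/-- **The rank over a quadratic extension.** -/
theorem rank_quad (E : WeierstrassCurve F) (hE : E.Δ ≠ 0) {d : F} (hd : d ≠ 0) {α : Z}
    (hα : α ^ 2 = algebraMap F Z d) (hαF : ∀ x : F, algebraMap F Z x ≠ α)
    (hgen : ∀ z : Z, ∃ x y : F, z = algebraMap F Z x + algebraMap F Z y * α) :
    Module.rank ℤ (E.map (algebraMap F Z)).toAffine.Point =
      Module.rank ℤ (twist E 1).toAffine.Point + Module.rank ℤ (twist E d).toAffine.Point := by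
  have hcz : CharZero Z := charZero_of_injective_algebraMap (algebraMap F Z).injective
  have hα0 : α ≠ 0 := by
    rintro rfl
    exact hαF 0 (map_zero _)
  -- the automorphism
  obtain ⟨σ, hσ⟩ : ∃ σ : Gal(Z/F), σ α = -α := by
    by_contra hcon
    push Not at hcon
    have h1 : ∀ σ : Gal(Z/F), σ α = α := by
      intro σ
      have h2 : (σ α) ^ 2 = α ^ 2 := by
        rw [← map_pow, hα, AlgEquiv.commutes]
      rcases sq_eq_sq_iff_eq_or_eq_neg.1 h2 with h3 | h3
      · exact h3
      · exact absurd h3 (hcon σ)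
    obtain ⟨x, hx⟩ := (IsGalois.mem_bot_iff_fixed α).2 h1
    exact hαF x hx
  have hσσ : ∀ z, σ (σ z) = z := by
    intro z
    obtain ⟨x, y, rfl⟩ := hgen z
    simp only [map_add, map_mul, AlgEquiv.commutes, hσ, map_neg, neg_neg]
  set S := twist E 1 with hS
  have hSΔ : S.Δ ≠ 0 := twist_disc hE one_ne_zero
  let τ : Pt S Z →ₗ[ℤ] Pt S Z := actPt S σ
  have hτa : ∀ P, τ P = mp S (σ : Z →ₐ[F] Z) P := fun P => rfl
  have hττ : ∀ P, τ (τ P) = P := by
    intro P
    rw [hτa, hτa, mp_mp]
    have e1 : ((σ : Z →ₐ[F] Z)).comp (σ : Z →ₐ[F] Z) = AlgHom.id F Z := by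
      ext x
      exact hσσ x
    rw [e1, mp_id]
  have h0 := rank_invol τ hττ
  have hSZ : (S.map (algebraMap F Z)).Δ ≠ 0 := by
    rw [WeierstrassCurve.map_Δ]
    exact (map_ne_zero _).2 hSΔ
  have hAB : Module.rank ℤ (E.map (algebraMap F Z)).toAffine.Point = Module.rank ℤ (Pt S Z) := by
    have h1 := vr_short (E.map (algebraMap F Z))
    have h2 : twist (E.map (algebraMap F Z)) 1 = S.map (algebraMap F Z) := by
      rw [hS, map_twist, map_one]
    rw [h2] at h1
    exact ((h1.equiv hSZ).toIntLinearEquiv.rank_eq).symm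
  -- the invariants
  have hplus : Module.rank ℤ (LinearMap.ker (LinearMap.id - τ)) = Module.rank ℤ S.toAffine.Point := by
    rw [← rank_self (E := S)]
    have h1 := (LinearEquiv.ofInjective (mp S (Algebra.ofId F Z)).toIntLinearMap
      (mp_inj S (Algebra.ofId F Z))).rank_eq
    have h2 : LinearMap.range (mp S (Algebra.ofId F Z)).toIntLinearMap =
        LinearMap.ker (LinearMap.id - τ) := by
      ext P
      rw [mem_range_of_fixed S hα hgen hσ, LinearMap.mem_ker, LinearMap.sub_apply,
        LinearMap.id_apply, sub_eq_zero, hτa]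
      exact eq_comm
    rw [h2] at h1
    exact h1.symm
  -- the anti-invariants
  have hminus : Module.rank ℤ (LinearMap.ker (LinearMap.id + τ)) =
      Module.rank ℤ (twist E d).toAffine.Point := by
    have hv := vr_twist (Z := Z) E hd hα
    have hTZ : ((twist E d).map (algebraMap F Z)).Δ ≠ 0 := by
      rw [WeierstrassCurve.map_Δ]
      exact (map_ne_zero _).2 (twist_disc hE hd)
    let θ : Pt (twist E d) Z ≃+ Pt S Z := hv.equiv hTZ
    have hθ : ∀ Q, τ (θ Q) = -θ (mp (twist E d) (σ : Z →ₐ[F] Z) Q) := by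
      intro Q
      rcases Q with _ | ⟨x, y, hxy⟩
      · change τ 0 = -(0 : Pt S Z)
        rw [map_zero, neg_zero]
      · obtain ⟨h', h1⟩ := mp_some (twist E d) (σ : Z →ₐ[F] Z) hxy
        rw [h1]
        have h2 : θ (.some x y hxy) = .some (α⁻¹ ^ 2 * x + 0) (α⁻¹ ^ 3 * y + α⁻¹ ^ 2 * 0 * x + 0)
            (Pool.Agent.Y700.nonsing (hv.delta_ne hTZ) (hv.eqn.2 hxy.1)) := rfl
        have h3 : θ (.some ((σ : Z →ₐ[F] Z) x) ((σ : Z →ₐ[F] Z) y) h') =
          .some (α⁻¹ ^ 2 * (σ : Z →ₐ[F] Z) x + 0)
            (α⁻¹ ^ 3 * (σ : Z →ₐ[F] Z) y + α⁻¹ ^ 2 * 0 * (σ : Z →ₐ[F] Z) x + 0)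
            (Pool.Agent.Y700.nonsing (hv.delta_ne hTZ) (hv.eqn.2 h'.1)) := rfl
        rw [h2, h3, hτa]
        obtain ⟨h'', h4⟩ := mp_some S (σ : Z →ₐ[F] Z)
          (Pool.Agent.Y700.nonsing (hv.delta_ne hTZ) (hv.eqn.2 hxy.1))
        rw [h4]
        rw [Affine.Point.neg_some]
        have e1 : (S.map (algebraMap F Z)).a₁ = 0 := by
          rw [hS]
          simp [twist]
        have e3 : (S.map (algebraMap F Z)).a₃ = 0 := by
          rw [hS]
          simp [twist]
        have hσ' : (σ : Z →ₐ[F] Z) α = -α := hσ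
        simp only [Affine.Point.some.injEq, Affine.negY, e1, e3, map_add, map_mul, map_pow,
          map_inv₀, hσ', map_zero]
        constructor
        · rw [inv_neg, neg_sq]
        · ring
    rw [← rank_self (E := twist E d)]
    let Φ : Pt (twist E d) F →ₗ[ℤ] Pt S Z :=
      (θ.toIntLinearEquiv : Pt (twist E d) Z →ₗ[ℤ] Pt S Z).comp
        (mp (twist E d) (Algebra.ofId F Z)).toIntLinearMap
    have hΦ : Function.Injective Φ := θ.injective.comp (mp_inj (twist E d) (Algebra.ofId F Z))
    have h2 : LinearMap.range Φ = LinearMap.ker (LinearMap.id + τ) := by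
      ext P
      have h3 : P ∈ LinearMap.range Φ ↔
          θ.symm P ∈ LinearMap.range (mp (twist E d) (Algebra.ofId F Z)).toIntLinearMap := by
        constructor
        · rintro ⟨Q, rfl⟩
          exact ⟨Q, (θ.symm_apply_apply _).symm⟩
        · rintro ⟨Q, hQ⟩
          refine ⟨Q, ?_⟩
          change θ ((mp (twist E d) (Algebra.ofId F Z)).toIntLinearMap Q) = P
          rw [hQ, θ.apply_symm_apply]
      rw [h3, mem_range_of_fixed (twist E d) hα hgen hσ, LinearMap.mem_ker, LinearMap.add_apply,
        LinearMap.id_apply]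
      have h4 := hθ (θ.symm P)
      rw [θ.apply_symm_apply] at h4
      rw [h4, ← sub_eq_add_neg, sub_eq_zero]
      constructor
      · intro h
        rw [h, θ.apply_symm_apply]
      · intro h
        rw [← θ.symm_apply_apply (mp (twist E d) (σ : Z →ₐ[F] Z) (θ.symm P)), ← h]
    rw [← h2]
    exact (LinearEquiv.ofInjective Φ hΦ).rank_eq.symm
  rw [hAB, h0, hplus, hminus]

end

end Pool.Agent.H453.BS
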