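import Pool.Agent.H453.MC.Fac
import Pool.Agent.H453.BS.Nice
import Pool.Agent.H453.BS.Rk
import Pool.Agent.H453.BS.Inv

/-! Fields over which the `L`-series and the ranks of all elliptic curves are given by those of twists over
smaller fields. -/

set_option autoImplicit false

namespace Pool.Agent.H453.BS

open NumberField IsDedekindDomain Complex Polynomial
open Pool.Agent.H341R2.EC
open Pool.Agent.R433.MD
open Pool.Agent.N19.BR (cnt IsRel LL_minimal)
open Pool.Agent.H453.MC (twist_elliptic isMinAt_one' exists_quad)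
open Pool.Agent.R333.BR (Pt)

section
variable {k : Type} [Field k] [NumberField k]

open scoped Classical in
/-- `L(E / K, s)` is a product of the `L`-series of quadratic twists of `E` over extensions of `k` of
degree less than `n`, and the rank of `E(K)` is the corresponding sum, for all `E / k` -/
def FacR (n : ℕ) (K : Ext k) : Prop :=
  ∃ (ι : Type) (_ : Fintype ι) (Z : ι → Ext k) (D : ∀ i, 𝓞 (Z i).F) (e : ι → ℤ),
    (∀ i, D i ≠ 0 ∧ Module.finrank k (Z i).F < n) ∧
    ∀ E : WeierstrassCurve k, E.IsElliptic →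
      (∀ V : HeightOneSpectrum (𝓞 K.F) → WeierstrassCurve (𝓞 K.F),
        (∀ v, IsMinAt (E.map (algebraMap k K.F)) v (V v)) →
      ∀ W : ∀ i, HeightOneSpectrum (𝓞 (Z i).F) → WeierstrassCurve (𝓞 (Z i).F),
        (∀ i v, IsMinAt (twist (E.map (algebraMap k (Z i).F)) (D i : (Z i).F)) v (W i v)) →
        ∃ R : ℂ → ℂ, Nice R ∧ ∀ s : ℂ, 3 / 2 < s.re → LL V s = R s * ∏ i, LL (W i) s ^ e i) ∧
      ∀ r : ι → ℕ, (∀ i, Module.rank ℤ
          (twist (E.map (algebraMap k (Z i).F)) (D i : (Z i).F)).toAffine.Point = r i) →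
        ∃ r0 : ℕ, Module.rank ℤ (E.map (algebraMap k K.F)).toAffine.Point = r0 ∧
          (r0 : ℤ) = ∑ i, e i * (r i : ℤ)

/-- the twist by `1` is isomorphic to the curve -/
theorem rank_twist_one {F : Type} [Field F] [CharZero F] [DecidableEq F] (E : WeierstrassCurve F)
    (hE : E.Δ ≠ 0) :
    Module.rank ℤ (twist E 1).toAffine.Point = Module.rank ℤ E.toAffine.Point :=
  ((vr_short E).equiv (twist_disc hE one_ne_zero)).toIntLinearEquiv.rank_eq

theorem facR_small {n : ℕ} (K : Ext k) (h : Module.finrank k K.F < n) : FacR n K := by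
  classical
  refine ⟨Unit, inferInstance, fun _ => K, fun _ => 1, fun _ => 1, fun _ => ⟨one_ne_zero, h⟩,
    fun E hE => ⟨fun V hV W hW => ⟨fun _ => 1, Nice.one, fun s hs => ?_⟩, fun r hr => ⟨r (), ?_, ?_⟩⟩⟩
  · rw [Fintype.prod_unique, zpow_one, one_mul]
    exact LL_minimal (inferInstance : (E.map (algebraMap k K.F)).IsElliptic) hV
      (fun v => isMinAt_one' _ v _ (hW () v)) s
  · rw [← hr ()]
    have e1 : (((1 : 𝓞 K.F) : K.F)) = 1 := map_one (algebraMap (𝓞 K.F) K.F)
    rw [e1]
    have hE' : (E.map (algebraMap k K.F)).IsElliptic := inferInstance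
    exact (rank_twist_one _ (E.map (algebraMap k K.F)).isUnit_Δ.ne_zero).symm
  · rw [Fintype.sum_unique, one_mul]

theorem facR_quad {n : ℕ} (Z₀ : Ext k) (Y : Ext Z₀.F) (hY : Module.finrank Z₀.F Y.F = 2)
    (h : Module.finrank k Z₀.F < n) : FacR n (Z₀.restrict Y) := by
  classical
  obtain ⟨D, B, α, hD0, hα, hmin⟩ := exists_quad hY
  have hDk : (D : Z₀.F) ≠ 0 := by
    rwa [Ne, FaithfulSMul.algebraMap_eq_zero_iff]
  refine ⟨Bool, inferInstance, fun _ => Z₀, fun b => if b then 1 else D, fun _ => 1, fun b => ⟨?_, h⟩,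
    fun E hE => ⟨fun V hV W hW => ?_, fun r hr => ⟨r true + r false, ?_, ?_⟩⟩⟩
  · cases b
    · simpa using hD0
    · simp
  · have hEZ : (E.map (algebraMap k Z₀.F)).IsElliptic := inferInstance
    have hV' : ∀ v, IsMinAt ((E.map (algebraMap k Z₀.F)).map (algebraMap Z₀.F Y.F)) v (V v) := by
      intro v
      have h1 := hV v
      rw [map_restrict] at h1
      exact h1
    have hW1 := hW true
    have hW2 := hW false
    simp only [if_true] at hW1
    simp only [Bool.false_eq_true, if_false] at hW2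
    obtain ⟨R, hR, hRL⟩ := quad_rel_nice (F := Z₀.F) hD0 (Z := Y.F) B hα hmin
      (E.map (algebraMap k Z₀.F)) hEZ hW1 hW2 (twist_elliptic hEZ hDk)
      (twist_elliptic hEZ (by simp)) hV'
    refine ⟨R, hR, fun s hs => ?_⟩
    rw [Fintype.prod_bool, zpow_one, zpow_one]
    exact hRL s hs
  · have h1 : Module.rank ℤ (twist (E.map (algebraMap k Z₀.F))
        (((1 : 𝓞 Z₀.F)) : Z₀.F)).toAffine.Point = r true := hr true
    have h2 : Module.rank ℤ (twist (E.map (algebraMap k Z₀.F))
        (D : Z₀.F)).toAffine.Point = r false := hr false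
    have e1 : (((1 : 𝓞 Z₀.F) : Z₀.F)) = 1 := map_one (algebraMap (𝓞 Z₀.F) Z₀.F)
    rw [e1] at h1
    have hq : Algebra.IsQuadraticExtension Z₀.F Y.F := ⟨hY⟩
    have hEZ : (E.map (algebraMap k Z₀.F)).IsElliptic := inferInstance
    have hdim : B.dim = 2 := by rw [← B.finrank, hY]
    have hα2 : (α : Y.F) ^ 2 = algebraMap Z₀.F Y.F (D : Z₀.F) := by
      have h3 := minpoly.aeval (𝓞 Z₀.F) α
      rw [hmin, map_sub, map_pow, aeval_X, aeval_C, sub_eq_zero] at h3
      have h4 := congrArg (algebraMap (𝓞 Y.F) Y.F) h3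
      rw [map_pow] at h4
      exact h4
    have hgen : ∀ z : Y.F, ∃ x y : Z₀.F,
        z = algebraMap Z₀.F Y.F x + algebraMap Z₀.F Y.F y * (α : Y.F) := by
      intro z
      obtain ⟨f, hf, hz⟩ := B.exists_eq_aeval z
      rw [hdim] at hf
      refine ⟨f.coeff 0, f.coeff 1, ?_⟩
      rw [hz, aeval_eq_sum_range' hf, Finset.sum_range_succ, Finset.sum_range_one, pow_zero,
        pow_one, Algebra.smul_def, Algebra.smul_def, mul_one, hα]
    have hαF : ∀ x : Z₀.F, algebraMap Z₀.F Y.F x ≠ (α : Y.F) := by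
      intro x hx
      have h3 : Module.finrank Z₀.F Y.F ≤ 1 := by
        refine finrank_le_one (1 : Y.F) fun w => ?_
        obtain ⟨a, b, hab⟩ := hgen w
        refine ⟨a + b * x, ?_⟩
        rw [Algebra.smul_def, mul_one, map_add, map_mul, hx, ← hab]
      omega
    have h3 := rank_quad (F := Z₀.F) (Z := Y.F) (E.map (algebraMap k Z₀.F))
      (E.map (algebraMap k Z₀.F)).isUnit_Δ.ne_zero hDk hα2 hαF hgen
    rw [h1, h2] at h3
    rw [map_restrict]
    push_cast
    exact h3
  · rw [Fintype.sum_bool, one_mul, one_mul]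
    push_cast
    rfl

theorem facR_restrict {m n : ℕ} (Z₀ : Ext k) (K : Ext Z₀.F) (h : FacR m K)
    (hmn : Module.finrank k Z₀.F * m ≤ n) : FacR n (Z₀.restrict K) := by
  classical
  obtain ⟨ι, hι, Z, D, e, hZ, hL⟩ := h
  refine ⟨ι, hι, fun i => Z₀.restrict (Z i), fun i => D i, e, fun i => ⟨(hZ i).1, ?_⟩,
    fun E hE => ?_⟩
  · rw [finrank_restrict]
    refine lt_of_lt_of_le ?_ hmn
    have : 0 < Module.finrank k Z₀.F := Module.finrank_pos
    exact Nat.mul_lt_mul_of_pos_left (hZ i).2 this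
  · have hEZ : (E.map (algebraMap k Z₀.F)).IsElliptic := inferInstance
    obtain ⟨h1, h2⟩ := hL (E.map (algebraMap k Z₀.F)) hEZ
    refine ⟨fun V hV W hW => h1 V (fun v => ?_) W (fun i v => ?_), fun r hr => ?_⟩
    · have h3 := hV v
      rw [map_restrict] at h3
      exact h3
    · have h3 := hW i v
      rw [map_restrict] at h3
      exact h3
    · obtain ⟨r0, h3, h4⟩ := h2 r (fun i => by
        have h5 := hr i
        rw [map_restrict] at h5
        exact h5)
      refine ⟨r0, ?_, h4⟩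
      rw [map_restrict]
      exact h3

/-- relations -/
theorem facR_rel {n : ℕ} {ι : Type} [Fintype ι] (K : Ext k) (Z : ι → Ext k) (c : ι → ℤ)
    {M : Type} [Field M] [NumberField M] [Algebra k M] [IsGalois k M] (f : K.F →ₐ[k] M)
    (g : ∀ i, (Z i).F →ₐ[k] M)
    (h : ∀ σ : Gal(M/k), fx f.fieldRange.fixingSubgroup σ =
      ∑ i, c i * fx (g i).fieldRange.fixingSubgroup σ)
    (hZ : ∀ i, FacR n (Z i)) : FacR n K := by
  classical
  choose κ hκ Y D e hY hL using hZ
  refine ⟨Σ i, κ i, inferInstance, fun q => Y q.1 q.2, fun q => D q.1 q.2, fun q => c q.1 * e q.1 q.2,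
    fun q => hY q.1 q.2, fun E hE => ⟨fun V hV W hW => ?_, fun r hr => ?_⟩⟩
  · have hVZ : ∀ i, ∃ VZ : HeightOneSpectrum (𝓞 (Z i).F) → WeierstrassCurve (𝓞 (Z i).F),
        ∀ w, IsMinAt (E.map (algebraMap k (Z i).F)) w (VZ w) := fun i =>
      exists_minimal _ inferInstance
    choose VZ hVZ using hVZ
    obtain ⟨V0, hV0⟩ := exists_minimal E hE
    obtain ⟨R, hR, hRL⟩ := L_rel_nice (K := k) (ι := Option ι) (fun i => i.elim K Z)
      (fun i => match i with
        | none => f
        | some i => g i) (fun i => i.elim (-1) c) 0 (fun σ => by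
          rw [Fintype.sum_option]
          have h1 := h σ
          change (-1 : ℤ) * fx f.fieldRange.fixingSubgroup σ +
            ∑ i, c i * fx (g i).fieldRange.fixingSubgroup σ = ((0 : ℕ) : ℤ)
          rw [h1]
          push_cast
          ring) E hE V0 hV0
        (fun i => match i with
        | none => V
        | some i => VZ i) (fun i => match i with
        | none => hV
        | some i => hVZ i)
    have hi := fun i => (hL i E hE).1 (VZ i) (hVZ i) (fun j => W ⟨i, j⟩) (fun j v => hW ⟨i, j⟩ v)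
    choose Ri hRi hRiL using hi
    refine ⟨fun s => R s * ∏ i, Ri i s ^ c i,
      hR.mul (Nice.prod Finset.univ fun i _ => (hRi i).zpow _), fun s hs => ?_⟩
    have h2 := hRL s hs
    rw [Fintype.prod_option] at h2
    have hne : LL V s ≠ 0 := LL_ne_zero (inferInstance : (E.map (algebraMap k K.F)).IsElliptic) hV hs
    simp only [pow_zero] at h2
    have h3 : 1 = R s * (LL V s ^ (-1 : ℤ) * ∏ i, LL (VZ i) s ^ c i) := h2
    have h4 : LL V s = R s * ∏ i, LL (VZ i) s ^ c i := by
      rw [zpow_neg_one] at h3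
      field_simp at h3
      linear_combination h3
    rw [h4, Fintype.prod_sigma, mul_assoc, ← Finset.prod_mul_distrib]
    congr 1
    refine Finset.prod_congr rfl fun i _ => ?_
    rw [hRiL i s hs, mul_zpow, ← Finset.prod_zpow]
    congr 1
    refine Finset.prod_congr rfl fun j _ => ?_
    rw [← zpow_mul, mul_comm]
  · have h1 := fun i => (hL i E hE).2 (fun j => r ⟨i, j⟩) (fun j => hr ⟨i, j⟩)
    choose ri hri hsum using h1
    obtain ⟨r0, h2, h3⟩ := rank_rel' (L := M) E f (fun i => (Z i).F) g c h ri hri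
    refine ⟨r0, h2, ?_⟩
    rw [h3, Fintype.sum_sigma]
    refine Finset.sum_congr rfl fun i _ => ?_
    rw [hsum i, Finset.mul_sum]
    exact Finset.sum_congr rfl fun j _ => (mul_assoc _ _ _).symm

end

end Pool.Agent.H453.BS
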