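import Pool.Agent.H453.BS.Nice
import Pool.Graph.R_pool_sql_team_seeded_63374d34.N683.H2.Res

/-! Relations between the `L`-series over extensions; regions without zeros and poles. -/

set_option autoImplicit false

namespace Pool.Agent.H453.BS

open NumberField IsDedekindDomain
open Pool.Agent.R433.MD
open Pool.Agent.H341R2.EC
open Pool.Agent.N19.BR.Def
open Pool.Agent.N19.BR (IsRel minimalModels_iff prod_eq exists_common fx_of_isRel continues_iff)
open scoped Classical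

/-- relations of extensions give relations of L-functions -/
theorem L_of_rel_nice {K : Type} [Field K] [NumberField K] {ι : Type} [Fintype ι] {Z : ι → Ext K}
    {e : ι → ℤ} (h : IsRel K Z e 1) {E : WeierstrassCurve K} (hE : E.IsElliptic)
    (V0 : HeightOneSpectrum (𝓞 K) → WeierstrassCurve (𝓞 K)) (hV0 : MinimalModels E V0)
    (V : ∀ i, HeightOneSpectrum (𝓞 (Z i).F) → WeierstrassCurve (𝓞 (Z i).F))
    (hV : ∀ i, MinimalModels (E.map (algebraMap K (Z i).F)) (V i)) :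
    ∃ ρ : ℂ → ℂ, Nice ρ ∧ ∀ s : ℂ, 3 / 2 < s.re →
      (∏' v, factor V0 s v) = ρ s * ∏ i, (∏' v, factor (V i) s v) ^ e i := by
  obtain ⟨L, _, _, _, _, hL⟩ := exists_common Z
  have f : ∀ i, (Z i).F →ₐ[K] L := fun i => (hL i).some
  obtain ⟨ρ, h1, h2⟩ := L_rel_nice Z f e 1 (fx_of_isRel h f) E hE V0
    ((minimalModels_iff E V0).1 hV0) V fun i => (minimalModels_iff _ (V i)).1 (hV i)
  refine ⟨ρ, h1, fun s hs => ?_⟩
  have h4 := h2 s hs
  rw [pow_one] at h4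
  rw [prod_eq, h4]
  congr 1
  exact Finset.prod_congr rfl fun i _ => by rw [prod_eq]

/-- zero-free continuations pass along relations -/
theorem zeroFree_of_rel {K : Type} [Field K] [NumberField K] {ι : Type} [Fintype ι] {Z : ι → Ext K}
    {e : ι → ℤ} (h : IsRel K Z e 1) {E : WeierstrassCurve K} (hE : E.IsElliptic)
    {U : Set ℂ} (hU : ∀ s ∈ U, 1 < s.re) (hc : ∀ i, ∃ Λ : ℂ → ℂ,
      Continues U 1 (E.map (algebraMap K (Z i).F)) Λ ∧ ∀ s ∈ U, AnalyticAt ℂ Λ s ∧ Λ s ≠ 0) :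
    ∃ Λ : ℂ → ℂ, Continues U 1 E Λ ∧ ∀ s ∈ U, AnalyticAt ℂ Λ s ∧ Λ s ≠ 0 := by
  obtain ⟨V0, hV0⟩ := exists_minimal E hE
  have hVZ : ∀ i, ∃ V : HeightOneSpectrum (𝓞 (Z i).F) → WeierstrassCurve (𝓞 (Z i).F),
      ∀ w, IsMinAt (E.map (algebraMap K (Z i).F)) w (V w) := fun i =>
    exists_minimal _ inferInstance
  choose VZ hVZ using hVZ
  choose Λ hΛ hΛz using hc
  obtain ⟨ρ, h1, h2⟩ := L_of_rel_nice h hE V0 ((minimalModels_iff E V0).2 hV0) VZ
    fun i => (minimalModels_iff _ (VZ i)).2 (hVZ i)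
  have hΛ' : ∀ i, MeromorphicOn (Λ i) U ∧ ∀ s : ℂ, 3 / 2 < s.re → Λ i s = LL (VZ i) s := by
    intro i
    have h2 := (continues_iff (U := U) (M := 1) (Λ := Λ i) inferInstance (hVZ i)).1 (hΛ i)
    exact ⟨h2.1, fun s hs => by rw [h2.2 s hs, pow_one]⟩
  have hana : ∀ s ∈ U, AnalyticAt ℂ (fun s => ρ s * ∏ i, Λ i s ^ e i) s ∧
      ρ s * ∏ i, Λ i s ^ e i ≠ 0 := by
    intro s hs
    have h3 := h1.2 s (Or.inl (hU s hs))
    refine ⟨h3.1.fun_mul (Finset.analyticAt_fun_prod _ fun i _ =>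
      (hΛz i s hs).1.fun_zpow (hΛz i s hs).2), mul_ne_zero h3.2 (Finset.prod_ne_zero_iff.2
      fun i _ => zpow_ne_zero _ (hΛz i s hs).2)⟩
  refine ⟨fun s => ρ s * ∏ i, Λ i s ^ e i, ?_, hana⟩
  rw [continues_iff hE hV0]
  refine ⟨fun s hs => (hana s hs).1.meromorphicAt, fun s hs => ?_⟩
  rw [← prod_eq, h2 s hs, pow_one]
  congr 1
  refine Finset.prod_congr rfl fun i _ => ?_
  rw [(hΛ' i).2 s hs, prod_eq]

end Pool.Agent.H453.BS
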