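import Pool.Agent.H453.MC.Shape
import Pool.Agent.H453.BS.FacR

/-! The structure of extensions without relations, for the rank formula. -/

set_option autoImplicit false

namespace Pool.Agent.H453.BS

open Pool.Agent.R433.MD (fx fixed_mem Ext)
open Pool.Agent.H453.MC (Sm Sp ext_restrict index_fix core_trivial exists_elementary_p general_span
  exists_elementary_solvable relIndex_sup_eq galois_span)
open IntermediateField
open scoped commutatorElement

section
variable {k : Type} [Field k] [NumberField k] {M : Type} [Field M] [NumberField M] [Algebra k M]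
  [IsGalois k M]

theorem facR_sm {n : ℕ} {S : Subgroup Gal(M/k)} (h : Sm n S) :
    FacR n (⟨IntermediateField.fixedField S⟩ : Ext k) := by
  have hidx : ∀ T : Subgroup Gal(M/k), Module.finrank k (IntermediateField.fixedField T) =
      T.index := by
    intro T
    rw [IntermediateField.finrank_eq_fixingSubgroup_index,
      IntermediateField.fixingSubgroup_fixedField]
  rcases h with h | ⟨S₀, hle, hrel, hidx₀⟩
  · exact facR_small _ (by rw [← hidx] at h; exact h)
  · have hle' : IntermediateField.fixedField S₀ ≤ IntermediateField.fixedField S :=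
      IntermediateField.fixedField_antitone hle
    let _ : Algebra (IntermediateField.fixedField S₀) (IntermediateField.fixedField S) :=
      (IntermediateField.inclusion hle').toRingHom.toAlgebra
    have _ : IsScalarTower k (IntermediateField.fixedField S₀) (IntermediateField.fixedField S) :=
      IsScalarTower.of_algebraMap_eq fun x => rfl
    have h1 := Module.finrank_mul_finrank k (IntermediateField.fixedField S₀)
      (IntermediateField.fixedField S)
    rw [hidx, hidx, ← Subgroup.relIndex_mul_index hle, hrel, mul_comm 2] at h1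
    have h0 : 0 < S₀.index := Nat.pos_of_ne_zero Subgroup.index_ne_zero_of_finite
    have h2 := Nat.eq_of_mul_eq_mul_left h0 h1
    have h3 := facR_quad (k := k) (n := n) ⟨IntermediateField.fixedField S₀⟩
      ⟨IntermediateField.fixedField S⟩ h2 (by
        change Module.finrank k (IntermediateField.fixedField S₀) < n
        rw [hidx]
        exact hidx₀)
    rwa [ext_restrict] at h3

/-- **From permutation characters to `L`-series and ranks.** -/
theorem facR_of_span {n : ℕ} (K : Ext k) (f : K.F →ₐ[k] M)
    (h : fx f.fieldRange.fixingSubgroup ∈ Sp Gal(M/k) n) : FacR n K := by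
  obtain ⟨m, c, g, hg⟩ := Submodule.mem_span_set'.1 h
  choose S hS hfx using fun i => (g i).2
  refine facR_rel (M := M) K (fun i => (⟨IntermediateField.fixedField (S i)⟩ : Ext k)) c f
    (fun i => IntermediateField.val _) (fun σ => ?_) (fun i => facR_sm (hS i))
  have h1 : ∀ i, (IntermediateField.val (IntermediateField.fixedField (S i))).fieldRange.fixingSubgroup
      = S i := by
    intro i
    rw [IntermediateField.fieldRange_val, IntermediateField.fixingSubgroup_fixedField]
  rw [← hg, Finset.sum_apply]
  refine Finset.sum_congr rfl fun i _ => ?_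
  rw [Pi.smul_apply, smul_eq_mul, hfx]
  congr 2
  exact (h1 i).symm

end

section fields
variable {k : Type} [Field k] [NumberField k] {K : Type} [Field K] [NumberField K] [Algebra k K]

/-- no relations -/
def NR (k : Type) [Field k] (K : Type) [Field K] [Algebra k K] : Prop :=
  ∀ (F : IntermediateField k K) (M : Type) [Field M] [NumberField M] [Algebra K M]
    [IsGalois F M], fx (IsScalarTower.toAlgHom F K M).fieldRange.fixingSubgroup ∉
      Sp Gal(M/F) (Module.finrank F K)

/-- **No relations.** -/
theorem no_relR (hK : ¬ FacR (Module.finrank k K) (⟨K⟩ : Ext k)) : NR k K := by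
  intro F M _ _ _ _ h
  have h1 := facR_of_span (k := F) (M := M) ⟨K⟩ (IsScalarTower.toAlgHom F K M) h
  have h2 := facR_restrict (k := k) (m := Module.finrank F K) (n := Module.finrank k K) ⟨F⟩ ⟨K⟩ h1
    (Module.finrank_mul_finrank k F K).le
  rw [ext_restrict] at h2
  exact hK h2

/-- **Normal 2-subgroups.** -/
theorem two_radical (hK : NR k K) (F : IntermediateField k K)
    (M : Type) [Field M] [NumberField M] [Algebra K M] [IsNormalClosure F K M] [IsGalois F M]
    {T : Subgroup Gal(M/F)} (hT : T.Normal) (h2 : IsPGroup 2 T) : T = ⊥ := by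
  by_contra hT1
  obtain ⟨A, -, hAn, hcomm, hexp, hA1⟩ := exists_elementary_p hT Nat.prime_two h2 hT1
  refine hK F M ?_
  rw [← index_fix F M]
  exact general_span Nat.prime_two _ A hAn hcomm hexp (fun h => hA1 (core_trivial F M hAn h))
    (Or.inl rfl)

/-- **Elementary abelian normal subgroups.** -/
theorem large_orbit (hK : NR k K) (F : IntermediateField k K)
    (M : Type) [Field M] [NumberField M] [Algebra K M] [IsGalois F M] {p : ℕ} (hp : p.Prime)
    {A : Subgroup Gal(M/F)} (hA : A.Normal) (hcomm : ∀ a ∈ A, ∀ b ∈ A, a * b = b * a)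
    (hexp : ∀ a ∈ A, a ^ p = 1)
    (hAH : ¬ A ≤ (IsScalarTower.toAlgHom F K M).fieldRange.fixingSubgroup) :
    p ≠ 2 ∧ ∃ B ≤ A, A ⊓ (IsScalarTower.toAlgHom F K M).fieldRange.fixingSubgroup ≤ B ∧
      B.relIndex A = p ∧ (IsScalarTower.toAlgHom F K M).fieldRange.fixingSubgroup.relIndex A ≤
        p * (Subgroup.normalizer (B : Set Gal(M/F))).relIndex
          (A ⊔ (IsScalarTower.toAlgHom F K M).fieldRange.fixingSubgroup) := by
  have h := hK F M
  rw [← index_fix F M] at h
  refine ⟨fun h2 => h (general_span hp _ A hA hcomm hexp hAH (Or.inl h2)), ?_⟩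
  by_contra hcon
  push Not at hcon
  exact h (general_span hp _ A hA hcomm hexp hAH (Or.inr hcon))

/-- **Solvable extensions.** -/
theorem solvable_case (hK : NR k K) (F : IntermediateField k K)
    (M : Type) [Field M] [NumberField M] [Algebra K M] [IsNormalClosure F K M] [IsGalois F M]
    [Group.IsSolvable Gal(M/F)] (hmax : ∀ L : IntermediateField F K, L = ⊥ ∨ L = ⊤)
    (hF : Module.finrank F K ≠ 1) :
    ∃ p d : ℕ, p.Prime ∧ p ≠ 2 ∧ d ≠ 0 ∧ Module.finrank F K = p ^ d := by
  set H := (IsScalarTower.toAlgHom F K M).fieldRange.fixingSubgroup with hH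
  have hidx : H.index = Module.finrank F K := index_fix F M
  have hnt : Nontrivial Gal(M/F) := by
    by_contra hcon
    rw [not_nontrivial_iff_subsingleton] at hcon
    apply hF
    rw [← hidx, Subgroup.index_eq_one]
    exact Subsingleton.elim _ _
  obtain ⟨p, A, hp, hAn, hcomm, hexp, hA1⟩ := exists_elementary_solvable (G := Gal(M/F))
  have hAH : ¬ A ≤ H := fun h => hA1 (core_trivial F M hAn h)
  obtain ⟨hp2, -⟩ := large_orbit hK F M hp hAn hcomm hexp hAH
  -- `A ⊔ H` is the whole group
  have htop : A ⊔ H = ⊤ := by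
    let L : IntermediateField F K := (fixedField (A ⊔ H)).comap (IsScalarTower.toAlgHom F K M)
    rcases hmax L with h | h
    · have h1 : fixedField (A ⊔ H) = ⊥ := by
        rw [eq_bot_iff]
        intro x hx
        have h2 : x ∈ fixedField H := fixedField_antitone le_sup_right hx
        rw [hH, IsGalois.fixedField_fixingSubgroup] at h2
        obtain ⟨y, rfl⟩ := h2
        have h3 : y ∈ L := hx
        rw [h, mem_bot] at h3
        obtain ⟨z, rfl⟩ := h3
        rw [mem_bot]
        exact ⟨z, rfl⟩
      rw [← fixingSubgroup_fixedField (A ⊔ H), h1, fixingSubgroup_bot]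
    · exfalso
      apply hAH
      have h1 : (IsScalarTower.toAlgHom F K M).fieldRange ≤ fixedField (A ⊔ H) := by
        rintro _ ⟨y, rfl⟩
        have h2 : y ∈ L := by rw [h]; trivial
        exact h2
      rw [le_iff_le] at h1
      exact le_sup_left.trans h1
  have h1 : H.index = H.relIndex A := by
    rw [← relIndex_sup_eq H A, htop, Subgroup.relIndex_top_right]
  have : Fact p.Prime := ⟨hp⟩
  have hpA : IsPGroup p A := fun a => ⟨1, by
    rw [pow_one]
    exact Subtype.ext (hexp a a.2)⟩
  obtain ⟨n, hn⟩ := IsPGroup.iff_card.1 hpA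
  have h2 : H.relIndex A ∣ p ^ n := by
    rw [← hn]
    exact (H.subgroupOf A).index_dvd_card
  obtain ⟨d, -, hd⟩ := (Nat.dvd_prime_pow hp).1 h2
  refine ⟨p, d, hp, hp2, ?_, by rw [← hidx, h1, hd]⟩
  rintro rfl
  apply hF
  rw [← hidx, h1, hd, pow_zero]

/-- the automorphisms -/
theorem aut_core (hK : NR k K) (Γ : Subgroup Gal(K/k))
    (h : Nat.card Γ = 2 ∨ ∃ p q : ℕ, p.Prime ∧ q.Prime ∧ Nat.card Γ = p * q ∧ ¬ IsCyclic Γ) :
    False := by
  have hgal : IsGalois (fixedField Γ) K := IsGalois.of_fixed_field K Γ
  let e : Γ ≃* Gal(K/fixedField Γ) := subgroupEquivAlgEquiv Γ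
  have hcard : Nat.card Gal(K/fixedField Γ) = Nat.card Γ := (Nat.card_congr e.toEquiv).symm
  refine hK (fixedField Γ) K ?_
  have h1 : (IsScalarTower.toAlgHom (fixedField Γ) K K).fieldRange.fixingSubgroup = ⊥ := by
    have h2 : (IsScalarTower.toAlgHom (fixedField Γ) K K).fieldRange = ⊤ := by
      rw [eq_top_iff]
      intro x _
      exact ⟨x, rfl⟩
    rw [h2, fixingSubgroup_top]
  have h2 : Module.finrank (fixedField Γ) K = Nat.card Gal(K/fixedField Γ) :=
    (IsGalois.card_aut_eq_finrank (fixedField Γ) K).symm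
  rw [h1, h2]
  refine galois_span ?_
  rcases h with h | ⟨p, q, hp, hq, hpq, hcyc⟩
  · exact Or.inl (by rw [hcard, h])
  · refine Or.inr ⟨p, q, hp, hq, by rw [hcard, hpq], fun h3 => hcyc ?_⟩
    exact isCyclic_of_surjective e.symm e.symm.surjective

/-- **Automorphisms.** -/
theorem aut_case (hK : NR k K) :
    Odd (Nat.card Gal(K/k)) ∧ ∀ (B : Subgroup Gal(K/k)) (p q : ℕ), p.Prime → q.Prime →
      Nat.card B = p * q → IsCyclic B := by
  constructor
  · by_contra hodd
    rw [Nat.not_odd_iff_even, even_iff_two_dvd] at hodd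
    have : Fact (Nat.Prime 2) := ⟨Nat.prime_two⟩
    obtain ⟨x, hx⟩ := exists_prime_orderOf_dvd_card' (G := Gal(K/k)) 2 hodd
    exact aut_core hK (Subgroup.zpowers x) (Or.inl (by rw [Nat.card_zpowers, hx]))
  · intro B p q hp hq hB
    by_contra hcyc
    exact aut_core hK B (Or.inr ⟨p, q, hp, hq, hB, hcyc⟩)

end fields

end Pool.Agent.H453.BS
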